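import Pool.Agent.W448.FF.Kernel

/-! INS: invariance of the three statistics. -/

set_option autoImplicit false

namespace Pool.Agent.W108.FF

open Pool.Agent.W448.FF

variable {V : Type}

theorem z1_symm (G : OG V) (u v : V) : z1 (ac G u v) = z1 (ac G v u) := by
  have h1 := G.asymm u v
  have h2 := G.asymm v u
  unfold ac z1
  by_cases p : G.arc u v <;> by_cases q : G.arc v u <;> simp_all <;> rfl

theorem rz_symm (G : OG V) (u v : V) : Nat.beq (ac G u v) 0 = Nat.beq (ac G v u) 0 := by
  have h1 := G.asymm u v
  have h2 := G.asymm v u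
  unfold ac
  by_cases p : G.arc u v <;> by_cases q : G.arc v u <;> simp_all <;> rfl

theorem o2_comm (a b : ℕ) : o2 a b = o2 b a := by
  unfold o2
  cases Nat.beq a 1 <;> cases Nat.beq b 1 <;> rfl

theorem beq_comm' (a b : ℕ) : Nat.beq a b = Nat.beq b a := by
  rw [Bool.eq_iff_iff, Nat.beq_eq, Nat.beq_eq]
  exact eq_comm

/-- one defect term -/
noncomputable def ft (G : OG V) (dl U : ℕ) (a b c d e : V) : ℕ :=
  df dl U (ac G a b) (ac G a c) (ac G b c) (ac G a d) (ac G b d) (ac G c d) (ac G a e) (ac G b e)
    (ac G c e) (ac G d e)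

theorem ft_comm (G : OG V) (dl U : ℕ) (a b c d e : V) :
    ft G dl U a b c d e = ft G dl U a b c e d := by
  unfold ft df
  rw [rz_symm G d e, beq_comm' (pt (ac G a d) (ac G b d) (ac G c d))]

/-- one cherry -/
noncomputable def ch (G : OG V) (a b c : V) : ℕ := o2 (ac G a b) (ac G a c)

theorem ch_comm (G : OG V) (a b c : V) : ch G a b c = ch G a c b := o2_comm _ _

/-- one pair -/
noncomputable def zz (G : OG V) (a b : V) : ℕ := z1 (ac G a b)

theorem zz_comm (G : OG V) (a b : V) : zz G a b = zz G b a := z1_symm G a b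

theorem sz_eq (G : OG V) (a b c d e : V) : onV sz G a b c d e =
    zz G a b + zz G a c + zz G a d + zz G a e + zz G b c + zz G b d + zz G b e + zz G c d + zz G c
    e + zz G d e := by
  unfold onV sz zz
  simp only [Nat.add_eq]
  omega

theorem sc_eq (G : OG V) (a b c d e : V) : onV sc G a b c d e =
    ch G a b c + ch G a b d + ch G a b e + ch G a c d + ch G a c e + ch G a d e + ch G b a c + ch
    G b a d + ch G b a e + ch G b c d + ch G b c e + ch G b d e + ch G c a b + ch G c a d + ch G c
    a e + ch G c b d + ch G c b e + ch G c d e + ch G d a b + ch G d a c + ch G d a e + ch G d b c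
    + ch G d b e + ch G d c e + ch G e a b + ch G e a c + ch G e a d + ch G e b c + ch G e b d +
    ch G e c d := by
  unfold onV sc ch
  simp only [Nat.add_eq]
  omega

theorem s3_eq (G : OG V) (dl U : ℕ) (a b c d e : V) : onV (s3 dl U) G a b c d e =
    ft G dl U a b c d e + ft G dl U a b d c e + ft G dl U a b e c d + ft G dl U a c b d e + ft G
    dl U a c d b e + ft G dl U a c e b d + ft G dl U a d b c e + ft G dl U a d c b e + ft G dl U a
    d e b c + ft G dl U a e b c d + ft G dl U a e c b d + ft G dl U a e d b c + ft G dl U b a c d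
    e + ft G dl U b a d c e + ft G dl U b a e c d + ft G dl U b c a d e + ft G dl U b c d a e + ft
    G dl U b c e a d + ft G dl U b d a c e + ft G dl U b d c a e + ft G dl U b d e a c + ft G dl U
    b e a c d + ft G dl U b e c a d + ft G dl U b e d a c + ft G dl U c a b d e + ft G dl U c a d
    b e + ft G dl U c a e b d + ft G dl U c b a d e + ft G dl U c b d a e + ft G dl U c b e a d +
    ft G dl U c d a b e + ft G dl U c d b a e + ft G dl U c d e a b + ft G dl U c e a b d + ft G
    dl U c e b a d + ft G dl U c e d a b + ft G dl U d a b c e + ft G dl U d a c b e + ft G dl U d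
    a e b c + ft G dl U d b a c e + ft G dl U d b c a e + ft G dl U d b e a c + ft G dl U d c a b
    e + ft G dl U d c b a e + ft G dl U d c e a b + ft G dl U d e a b c + ft G dl U d e b a c + ft
    G dl U d e c a b + ft G dl U e a b c d + ft G dl U e a c b d + ft G dl U e a d b c + ft G dl U
    e b a c d + ft G dl U e b c a d + ft G dl U e b d a c + ft G dl U e c a b d + ft G dl U e c b
    a d + ft G dl U e c d a b + ft G dl U e d a b c + ft G dl U e d b a c + ft G dl U e d c a b := by
  unfold onV s3 ft
  simp only [Nat.add_eq, Nat.add_assoc]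

theorem ins : S_INS := by
  intro V G
  refine ⟨⟨?_, ?_, ?_, ?_⟩, ⟨?_, ?_, ?_, ?_⟩, fun dl U => ⟨?_, ?_, ?_, ?_⟩⟩
  · intro a b c d e
    rw [sz_eq, sz_eq, zz_comm G b a]
    omega
  · intro a b c d e
    rw [sz_eq, sz_eq, zz_comm G c b]
    omega
  · intro a b c d e
    rw [sz_eq, sz_eq, zz_comm G d c]
    omega
  · intro a b c d e
    rw [sz_eq, sz_eq, zz_comm G e d]
    omega
  · intro a b c d e
    rw [sc_eq, sc_eq]
    rw [ch_comm G c b a, ch_comm G d b a, ch_comm G e b a]
    omega
  · intro a b c d e
    rw [sc_eq, sc_eq]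
    rw [ch_comm G a c b, ch_comm G d c b, ch_comm G e c b]
    omega
  · intro a b c d e
    rw [sc_eq, sc_eq]
    rw [ch_comm G a d c, ch_comm G b d c, ch_comm G e d c]
    omega
  · intro a b c d e
    rw [sc_eq, sc_eq]
    rw [ch_comm G a e d, ch_comm G b e d, ch_comm G c e d]
    omega
  · intro a b c d e
    rw [s3_eq, s3_eq]
    rw [ft_comm G dl U c d e b a, ft_comm G dl U c e d b a, ft_comm G dl U d c e b a, ft_comm G dl U
      d e c b a, ft_comm G dl U e c d b a, ft_comm G dl U e d c b a]
    omega
  · intro a b c d e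
    rw [s3_eq, s3_eq]
    rw [ft_comm G dl U a d e c b, ft_comm G dl U a e d c b, ft_comm G dl U d a e c b, ft_comm G dl U
      d e a c b, ft_comm G dl U e a d c b, ft_comm G dl U e d a c b]
    omega
  · intro a b c d e
    rw [s3_eq, s3_eq]
    rw [ft_comm G dl U a b e d c, ft_comm G dl U a e b d c, ft_comm G dl U b a e d c, ft_comm G dl U
      b e a d c, ft_comm G dl U e a b d c, ft_comm G dl U e b a d c]
    omega
  · intro a b c d e
    rw [s3_eq, s3_eq]
    rw [ft_comm G dl U a b c e d, ft_comm G dl U a c b e d, ft_comm G dl U b a c e d, ft_comm G dl U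
      b c a e d, ft_comm G dl U c a b e d, ft_comm G dl U c b a e d]
    omega

end Pool.Agent.W108.FF
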